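import Pool.Agent.N708.MD.C

/-!
# Zero is a median of the sum-of-digits measures `P_t` and `μ_t`, with all equality cases
-/

set_option autoImplicit false

namespace Pool.Agent.Results.MP_23af5d_nt.MedianInequality

open Filter Topology

/-- the number of ones in the binary expansion of `n` -/
def s (n : ℕ) : ℕ := (Nat.digits 2 n).sum

/-- the number of zeros in the binary expansion of `n` (without leading zeros) -/
def z (n : ℕ) : ℕ := (Nat.digits 2 n).count 0

/-- Let `P t` (`t ≥ 1`) be the measures on `ℤ` defined by `P_1 = δ_0`, `P_{2n} = P_n`,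
`P_{2n+1}(d) = (P_n(d-1) + P_{n+1}(d+1)) / 2`.

(1) For every `t ≥ 1` the masses `a = P_t(ℕ)` and `b = P_t(-ℕ)` are at least `1/2`. If `t ≥ 3` is odd
then `a = 1/2` if and only if any two of the places `0`, `log₂ t` and the places of the binary digits
zero of `t` differ by more than `z t`, and `b = 1/2` if and only if any two places of binary digits
one of `t` differ by at least `s t - 1`; otherwise explicit lower bounds hold.

(2) For every `t ≥ 1` the densities `μ_t(d)` of the sets `{n : s(n+t) - s(n) = d}` exist and have sum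
`1`, and the masses `a = μ_t(ℕ)`, `b = μ_t(-ℕ)` satisfy `a ≥ 1/2 + (1/2) (1/4)^(s t)`, `b ≥ 1/2`, with
`b = 1/2` if and only if any two places of binary digits one of `t` differ by at least `s t`;
otherwise `b ≥ 1/2 + (1/2) (1/4)^(s t - 1)`. -/
theorem result (P : ℕ → ℤ → ℝ) (hP1 : ∀ d : ℤ, P 1 d = if d = 0 then 1 else 0)
    (hP2 : ∀ n : ℕ, 1 ≤ n → ∀ d : ℤ, P (2 * n) d = P n d)
    (hP3 : ∀ n : ℕ, 1 ≤ n → ∀ d : ℤ,
      P (2 * n + 1) d = 1 / 2 * P n (d - 1) + 1 / 2 * P (n + 1) (d + 1))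
    (t : ℕ) (ht : 1 ≤ t) :
    (∃ a b : ℝ, HasSum (fun d : ℕ => P t (d : ℤ)) a ∧ HasSum (fun d : ℕ => P t (-(d : ℤ))) b ∧
      1 / 2 ≤ a ∧ 1 / 2 ≤ b ∧
      (Odd t → 3 ≤ t →
        (a = 1 / 2 ↔ ∀ i j : ℕ, i < j → j ≤ Nat.log 2 t → (i = 0 ∨ t.testBit i = false) →
          (j = Nat.log 2 t ∨ t.testBit j = false) → z t < j - i) ∧
        (b = 1 / 2 ↔ ∀ i j : ℕ, i < j → t.testBit i = true → t.testBit j = true →
          s t - 1 ≤ j - i) ∧
        (a ≠ 1 / 2 → 1 / 2 + 1 / 2 * (1 / 4 : ℝ) ^ min (z t) (s t - 1) ≤ a) ∧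
        (b ≠ 1 / 2 → 1 / 2 + 1 / 2 * (1 / 4 : ℝ) ^ min (s t - 2) (z t + 1) ≤ b))) ∧
    (∃ (μ : ℤ → ℝ) (a b : ℝ),
      (∀ d : ℤ, Tendsto (fun N : ℕ =>
        (((Finset.range N).filter fun n => (s (n + t) : ℤ) - s n = d).card : ℝ) / N) atTop
          (𝓝 (μ d))) ∧
      HasSum μ 1 ∧ HasSum (fun d : ℕ => μ (d : ℤ)) a ∧ HasSum (fun d : ℕ => μ (-(d : ℤ))) b ∧
      1 / 2 + 1 / 2 * (1 / 4 : ℝ) ^ s t ≤ a ∧ 1 / 2 ≤ b ∧
      (b = 1 / 2 ↔ ∀ i j : ℕ, i < j → t.testBit i = true → t.testBit j = true → s t ≤ j - i) ∧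
      (b ≠ 1 / 2 → 1 / 2 + 1 / 2 * (1 / 4 : ℝ) ^ (s t - 1) ≤ b)) := by
  have hs : s = N708.MD.s := rfl
  have hz : z = N708.MD.z := rfl
  rw [hs, hz]
  refine ⟨?_, ?_⟩
  · obtain ⟨u, rfl⟩ := N708.MD.exists_vt t ht
    have hg := (N708.MD.good_vt ⟨hP1, hP2, hP3⟩ u).1
    have h1 := hg.sum_up 0
    have h2 := hg.sum_down 0
    simp only [zero_add, zero_sub] at h1 h2
    refine ⟨N708.MD.up u, N708.MD.dn u, h1, h2, N708.MD.up_ge u, N708.MD.dn_ge u, fun hodd h3 => ?_⟩
    cases u with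
    | nil => exact absurd h3 (by decide)
    | cons b w =>
      cases b with
      | false =>
        exfalso
        obtain ⟨c, hc⟩ := hodd
        have : N708.MD.vt (false :: w) = 2 * N708.MD.vt w := rfl
        omega
      | true =>
        have e1 : N708.MD.s (N708.MD.vt (true :: w)) = w.count true + 2 := by
          rw [N708.MD.s_vt, List.count_cons_self]
        have e2 : N708.MD.z (N708.MD.vt (true :: w)) = w.count false := by
          rw [N708.MD.z_vt, List.count_cons_of_ne (by decide)]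
        refine ⟨N708.MD.up_eq_bits w, ?_, fun h => ?_, fun h => ?_⟩
        · rw [N708.MD.dn_eq_bits w]
          constructor
          · intro h i j hij hi hj
            have := h i j hij hi hj
            omega
          · intro h i j hij hi hj
            have := h i j hij hi hj
            omega
        · have := N708.MD.up_gap w h
          rw [e1, e2]
          exact this
        · have := N708.MD.dn_gap w h
          rw [e1, e2]
          exact this
  · obtain ⟨μ, a, b, h1, h2, h3, h4, h5, h6, h7, h8⟩ := N708.MD.mu_main t ht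
    refine ⟨μ, a, b, fun d => (h1 d).congr fun N => ?_, h2, h3, h4, h5, h6, h7, h8⟩
    unfold Pool.Agent.Y471.CK.S Pool.Agent.Y471.CK.pt Pool.Agent.Y471.CK.df
    rw [Finset.sum_boole]
    rfl

end Pool.Agent.Results.MP_23af5d_nt.MedianInequality
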